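import Pool.Agent.H25.SQ.CNT1

/-!
# Counting with the label model: the squares
-/

namespace Pool.Agent.H25.SQ

open Finset Pool.Agent.H36Sq Pool.Agent.H81.SQ
open scoped BigOperators

theorem sum_P {G : Type} {K : ℕ} (lam : G → Fin K) (P : ℝ) (x : G) (g : Fin K → ℝ) :
    ∑ X, P * ind lam X x * g X = P * g (lam x) := by
  rw [← sum_ind_mul lam x g, Finset.mul_sum]
  refine Finset.sum_congr rfl fun X _ => ?_
  ring

theorem six_ind {G : Type} {K : ℕ} (lam : G → Fin K) (x x' y y' z z' : G)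
    (g : Fin K → Fin K → Fin K → Fin K → Fin K → Fin K → ℝ) :
    ∑ X, ∑ X', ∑ Y, ∑ Y', ∑ Z, ∑ Z', ind lam X x * ind lam X' x' * ind lam Y y * ind lam Y' y' *
      ind lam Z z * ind lam Z' z' * g X X' Y Y' Z Z' =
      g (lam x) (lam x') (lam y) (lam y') (lam z) (lam z') := by
  simp_rw [sum_P, sum_ind_mul]

theorem four_sum {ι : Type*} [Fintype ι] (a b c d : ι → ℝ) (C : ℝ) :
    ∑ i, ∑ j, ∑ k, ∑ l, a i * b j * c k * d l * C =
      C * ((∑ i, a i) * (∑ i, b i) * (∑ i, c i) * (∑ i, d i)) := by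
  have e1 : ∀ i j k, ∑ l, a i * b j * c k * d l * C = a i * b j * c k * ((∑ l, d l) * C) := by
    intro i j k
    rw [Finset.sum_mul, Finset.mul_sum]
    exact Finset.sum_congr rfl fun l _ => by ring
  simp_rw [e1]
  generalize (∑ l, d l) = D
  have e2 : ∀ i j, ∑ k, a i * b j * c k * (D * C) = a i * b j * ((∑ k, c k) * (D * C)) := by
    intro i j
    rw [Finset.sum_mul, Finset.mul_sum]
    exact Finset.sum_congr rfl fun l _ => by ring
  simp_rw [e2]
  generalize (∑ l, c l) = E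
  have e3 : ∀ i, ∑ j, a i * b j * (E * (D * C)) = a i * ((∑ k, b k) * (E * (D * C))) := by
    intro i
    rw [Finset.sum_mul, Finset.mul_sum]
    exact Finset.sum_congr rfl fun l _ => by ring
  simp_rw [e3]
  rw [← Finset.sum_mul]
  ring

theorem expect3_sum {H ι : Type*} [Fintype H] [Fintype ι] (g : ι → H → H → H → ℝ) :
    𝔼 h : H, 𝔼 k : H, 𝔼 d : H, ∑ i, g i h k d = ∑ i, 𝔼 h : H, 𝔼 k : H, 𝔼 d : H, g i h k d := by
  simp only [Finset.expect_sum_comm]

variable {G : Type} [AddCommGroup G] [Module (ZMod 2) G]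

theorem add_self_zero (x : G) : x + x = 0 := by
  have h : (2 : ZMod 2) • x = 0 := by
    have : (2 : ZMod 2) = 0 := by decide
    rw [this, zero_smul]
  rw [← two_smul (ZMod 2) x, h]

/-- The four values of a form on a square. -/
theorem four_form (L : LinearMap.BilinForm (ZMod 2) G) (x y d : G) :
    L x y + L (x + d) y + L x (y + d) + L (x + d) (y + d) =
      L x x + L (x + d) (x + d) + L y y + L (y + d) (y + d) + L (x + y) (x + y) +
        L (x + y + d) (x + y + d) := by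
  simp only [map_add, LinearMap.add_apply]
  have h2 : ∀ a : ZMod 2, a + a = 0 := by decide
  have e : ∀ a : ZMod 2, (2 : ZMod 2) * a = 0 := by decide
  generalize L x y = a1
  generalize L x x = a2
  generalize L y y = a3
  generalize L y x = a4
  generalize L x d = a5
  generalize L d x = a6
  generalize L y d = a7
  generalize L d y = a8
  generalize L d d = a9
  revert a1 a2 a3 a4 a5 a6 a7 a8 a9
  decide

variable [Fintype G]

/-- The local correlation of six labels with four forms. -/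
noncomputable def I6 (B : Fac G) (H : Submodule (ZMod 2) G) (x₀ y₀ : G)
    (X X' Y Y' Z Z' : Fin B.K) (γ₁ γ₂ γ₃ γ₄ : Fin B.k → ZMod 2) : ℝ :=
  𝔼 h : H, 𝔼 k : H, 𝔼 d : H, ind B.lam X (x₀ + h) * ind B.lam X' (x₀ + h + d) *
    ind B.lam Y (y₀ + k) * ind B.lam Y' (y₀ + k + d) *
    ind B.lam Z (x₀ + h + (y₀ + k)) * ind B.lam Z' (x₀ + h + (y₀ + k) + d) *
    (sg (B.comb γ₁ (x₀ + h) (y₀ + k)) * sg (B.comb γ₂ (x₀ + h + d) (y₀ + k)) *
      sg (B.comb γ₃ (x₀ + h) (y₀ + k + d)) * sg (B.comb γ₄ (x₀ + h + d) (y₀ + k + d)))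

theorem TL_expand (h3 : T_FEXP) (B : Fac G) (H : Submodule (ZMod 2) G) (f : G → G → ℝ)
    (F : Fin B.K → Fin B.K → Fin B.K → (Fin B.k → ZMod 2) → ℝ)
    (hf : ∀ x y, f x y = F (B.lam x) (B.lam y) (B.lam (x + y)) (fun i => B.M i x y))
    (x₀ y₀ : G) :
    TL H f x₀ y₀ = ∑ X, ∑ X', ∑ Y, ∑ Y', ∑ Z, ∑ Z', ∑ γ₁, ∑ γ₂, ∑ γ₃, ∑ γ₄,
      hat (F X Y Z) γ₁ * hat (F X' Y Z') γ₂ * hat (F X Y' Z') γ₃ * hat (F X' Y' Z) γ₄ *
        I6 B H x₀ y₀ X X' Y Y' Z Z' γ₁ γ₂ γ₃ γ₄ := by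
  obtain ⟨-, inv, -, -⟩ := h3 B.k
  have key : ∀ x y d, f x y * f (x + d) y * f x (y + d) * f (x + d) (y + d) =
      ∑ X, ∑ X', ∑ Y, ∑ Y', ∑ Z, ∑ Z', ∑ γ₁, ∑ γ₂, ∑ γ₃, ∑ γ₄,
      hat (F X Y Z) γ₁ * hat (F X' Y Z') γ₂ * hat (F X Y' Z') γ₃ * hat (F X' Y' Z) γ₄ *
        (ind B.lam X x * ind B.lam X' (x + d) *
    ind B.lam Y y * ind B.lam Y' (y + d) *
    ind B.lam Z (x + y) * ind B.lam Z' (x + y + d) *
    (sg (B.comb γ₁ x y) * sg (B.comb γ₂ (x + d) y) *
      sg (B.comb γ₃ x (y + d)) * sg (B.comb γ₄ (x + d) (y + d)))) := by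
    intro x y d
    have e1 : ∀ X X' Y Y' Z Z', ∑ γ₁, ∑ γ₂, ∑ γ₃, ∑ γ₄,
      hat (F X Y Z) γ₁ * hat (F X' Y Z') γ₂ * hat (F X Y' Z') γ₃ * hat (F X' Y' Z) γ₄ *
        (ind B.lam X x * ind B.lam X' (x + d) *
    ind B.lam Y y * ind B.lam Y' (y + d) *
    ind B.lam Z (x + y) * ind B.lam Z' (x + y + d) *
    (sg (B.comb γ₁ x y) * sg (B.comb γ₂ (x + d) y) *
      sg (B.comb γ₃ x (y + d)) * sg (B.comb γ₄ (x + d) (y + d)))) =
        ind B.lam X x * ind B.lam X' (x + d) *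
    ind B.lam Y y * ind B.lam Y' (y + d) *
    ind B.lam Z (x + y) * ind B.lam Z' (x + y + d) *
      (F X Y Z (fun i => B.M i x y) * F X' Y Z' (fun i => B.M i (x + d) y) *
        F X Y' Z' (fun i => B.M i x (y + d)) * F X' Y' Z (fun i => B.M i (x + d) (y + d))) := by
      intro X X' Y Y' Z Z'
      rw [inv (F X Y Z) (fun i => B.M i x y), inv (F X' Y Z') (fun i => B.M i (x + d) y),
        inv (F X Y' Z') (fun i => B.M i x (y + d)),
        inv (F X' Y' Z) (fun i => B.M i (x + d) (y + d))]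
      rw [← four_sum]
      refine Finset.sum_congr rfl fun γ₁ _ => Finset.sum_congr rfl fun γ₂ _ =>
        Finset.sum_congr rfl fun γ₃ _ => Finset.sum_congr rfl fun γ₄ _ => ?_
      rw [comb_apply, comb_apply, comb_apply, comb_apply]
      ring
    simp_rw [e1]
    rw [six_ind B.lam x (x + d) y (y + d) (x + y) (x + y + d)
      (fun X X' Y Y' Z Z' => F X Y Z (fun i => B.M i x y) * F X' Y Z' (fun i => B.M i (x + d) y) *
        F X Y' Z' (fun i => B.M i x (y + d)) * F X' Y' Z (fun i => B.M i (x + d) (y + d)))]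
    rw [hf x y, hf (x + d) y, hf x (y + d), hf (x + d) (y + d)]
    have z1 : x + d + y = x + y + d := by abel
    have z2 : x + (y + d) = x + y + d := by abel
    have z3 : x + d + (y + d) = x + y := by
      have : x + d + (y + d) = x + y + (d + d) := by abel
      rw [this, add_self_zero, add_zero]
    rw [z1, z2, z3]
  unfold TL
  refine (Finset.expect_congr rfl fun (h : H) _ => Finset.expect_congr rfl fun (k : H) _ =>
    Finset.expect_congr rfl fun (d : H) _ => key (x₀ + h) (y₀ + k) d).trans ?_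
  rw [expect3_sum]
  refine Finset.sum_congr rfl fun X _ => ?_
  rw [expect3_sum]
  refine Finset.sum_congr rfl fun X' _ => ?_
  rw [expect3_sum]
  refine Finset.sum_congr rfl fun Y _ => ?_
  rw [expect3_sum]
  refine Finset.sum_congr rfl fun Y' _ => ?_
  rw [expect3_sum]
  refine Finset.sum_congr rfl fun Z _ => ?_
  rw [expect3_sum]
  refine Finset.sum_congr rfl fun Z' _ => ?_
  rw [expect3_sum]
  refine Finset.sum_congr rfl fun γ₁ _ => ?_
  rw [expect3_sum]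
  refine Finset.sum_congr rfl fun γ₂ _ => ?_
  rw [expect3_sum]
  refine Finset.sum_congr rfl fun γ₃ _ => ?_
  rw [expect3_sum]
  refine Finset.sum_congr rfl fun γ₄ _ => ?_
  unfold I6
  simp only [Finset.mul_expect]

/-- The main terms. -/
noncomputable def J6 {A : Type} {k : ℕ} (p q r : A → ℝ) (τ : A → (Fin k → ZMod 2))
    (X X' Y Y' Z Z' : A) (γ₁ γ₂ γ₃ γ₄ : Fin k → ZMod 2) : ℝ :=
  if γ₂ = γ₁ ∧ γ₃ = γ₁ ∧ γ₄ = γ₁ then
    p X * p X' * q Y * q Y' * r Z * r Z' *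
      sg (∑ i, γ₁ i * (τ X + τ X' + τ Y + τ Y' + τ Z + τ Z') i)
  else 0

theorem TM_expand (h3 : T_FEXP) {A : Type} [Fintype A] {k : ℕ} (p q r : A → ℝ)
    (τ : A → (Fin k → ZMod 2)) (F : A → A → A → (Fin k → ZMod 2) → ℝ) :
    TM p q r τ F = ∑ X, ∑ X', ∑ Y, ∑ Y', ∑ Z, ∑ Z', ∑ γ₁, ∑ γ₂, ∑ γ₃, ∑ γ₄,
      hat (F X Y Z) γ₁ * hat (F X' Y Z') γ₂ * hat (F X Y' Z') γ₃ * hat (F X' Y' Z) γ₄ *
        J6 p q r τ X X' Y Y' Z Z' γ₁ γ₂ γ₃ γ₄ := by
  obtain ⟨-, -, -, four⟩ := h3 k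
  unfold TM
  refine Finset.sum_congr rfl fun X _ => Finset.sum_congr rfl fun X' _ =>
    Finset.sum_congr rfl fun Y _ => Finset.sum_congr rfl fun Y' _ =>
    Finset.sum_congr rfl fun Z _ => Finset.sum_congr rfl fun Z' _ => ?_
  have h := four (F X Y Z) (F X' Y Z') (F X Y' Z') (F X' Y' Z)
    (τ X + τ X' + τ Y + τ Y' + τ Z + τ Z')
  have e : ∀ m₁ m₂ m₃ : Fin k → ZMod 2,
      m₁ + m₂ + m₃ + τ X + τ X' + τ Y + τ Y' + τ Z + τ Z' =
        m₁ + m₂ + m₃ + (τ X + τ X' + τ Y + τ Y' + τ Z + τ Z') := by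
    intro m₁ m₂ m₃; abel
  simp_rw [e]
  rw [h, Finset.mul_sum]
  refine Finset.sum_congr rfl fun γ₁ _ => ?_
  rw [Finset.sum_eq_single γ₁]
  · rw [Finset.sum_eq_single γ₁]
    · rw [Finset.sum_eq_single γ₁]
      · unfold J6
        rw [if_pos ⟨rfl, rfl, rfl⟩]
        ring
      · intro b _ hb
        unfold J6
        rw [if_neg (fun h => hb h.2.2), mul_zero]
      · intro h; exact absurd (Finset.mem_univ _) h
    · intro b _ hb
      refine Finset.sum_eq_zero fun c _ => ?_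
      unfold J6
      rw [if_neg (fun h => hb h.2.1), mul_zero]
    · intro h; exact absurd (Finset.mem_univ _) h
  · intro b _ hb
    refine Finset.sum_eq_zero fun c _ => Finset.sum_eq_zero fun c' _ => ?_
    unfold J6
    rw [if_neg (fun h => hb h.1), mul_zero]
  · intro h; exact absurd (Finset.mem_univ _) h

theorem cnt (h1 : T_OFFD) (h2 : T_OCT2) (h3 : T_FEXP) : T_CNT := by
  intro G _ _ _ B H f F τ ν μ ρ x₀ y₀ hμ hρ hν hHR hτ hF hf hx hy hxy
  obtain ⟨hat1, -, -, -⟩ := h3 B.k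
  set p := dens H B.lam x₀ with hp
  set q := dens H B.lam y₀ with hq
  set r := dens H B.lam (x₀ + y₀) with hr
  have hbase : 0 ≤ μ + 6 * ρ := by positivity
  have hI : ∀ X X' Y Y' Z Z' γ₁ γ₂ γ₃ γ₄, |I6 B H x₀ y₀ X X' Y Y' Z Z' γ₁ γ₂ γ₃ γ₄ -
      J6 p q r τ X X' Y Y' Z Z' γ₁ γ₂ γ₃ γ₄| ≤ μ + 6 * ρ := by
    intro X X' Y Y' Z Z' γ₁ γ₂ γ₃ γ₄
    by_cases hγ : γ₂ = γ₁ ∧ γ₃ = γ₁ ∧ γ₄ = γ₁
    · obtain ⟨g2, g3, g4⟩ := hγ
      rw [g2, g3, g4]
      unfold J6
      rw [if_pos ⟨rfl, rfl, rfl⟩]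
      set s := sg (∑ i, γ₁ i * (τ X + τ X' + τ Y + τ Y' + τ Z + τ Z') i) with hs
      have hs1 : |s| = 1 := abs_sg _
      have hval : ∀ v, B.comb γ₁ v v = ∑ i, γ₁ i * τ (B.lam v) i := by
        intro v
        rw [comb_apply]
        refine Finset.sum_congr rfl fun i _ => ?_
        rw [hτ]
      have e0 : I6 B H x₀ y₀ X X' Y Y' Z Z' γ₁ γ₁ γ₁ γ₁ = s * 𝔼 h : H, 𝔼 k : H, 𝔼 d : H,
          (fun v : H => ind B.lam X (x₀ + v)) h * (fun v : H => ind B.lam X' (x₀ + v)) (h + d) *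
            (fun v : H => ind B.lam Y (y₀ + v)) k * (fun v : H => ind B.lam Y' (y₀ + v)) (k + d) *
            (fun v : H => ind B.lam Z (x₀ + y₀ + v)) (h + k) *
            (fun v : H => ind B.lam Z' (x₀ + y₀ + v)) (h + k + d) := by
        unfold I6
        simp only [Finset.mul_expect]
        refine Finset.expect_congr rfl fun h _ => Finset.expect_congr rfl fun k _ =>
          Finset.expect_congr rfl fun d _ => ?_
        have a1 : x₀ + ((h + d : H) : G) = x₀ + h + d := by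
          rw [Submodule.coe_add]; abel
        have a2 : y₀ + ((k + d : H) : G) = y₀ + k + d := by
          rw [Submodule.coe_add]; abel
        have a3 : x₀ + y₀ + ((h + k : H) : G) = x₀ + h + (y₀ + k) := by
          rw [Submodule.coe_add]; abel
        have a4 : x₀ + y₀ + ((h + k + d : H) : G) = x₀ + h + (y₀ + k) + d := by
          rw [Submodule.coe_add, Submodule.coe_add]; abel
        rw [a1, a2, a3, a4]
        rw [← sg_add, ← sg_add, ← sg_add, four_form]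
        by_cases b1 : B.lam (x₀ + h) = X
        swap
        · simp [ind, b1]
        by_cases b2 : B.lam (x₀ + h + d) = X'
        swap
        · simp [ind, b2]
        by_cases b3 : B.lam (y₀ + k) = Y
        swap
        · simp [ind, b3]
        by_cases b4 : B.lam (y₀ + k + d) = Y'
        swap
        · simp [ind, b4]
        by_cases b5 : B.lam (x₀ + h + (y₀ + k)) = Z
        swap
        · simp [ind, b5]
        by_cases b6 : B.lam (x₀ + h + (y₀ + k) + d) = Z'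
        swap
        · simp [ind, b6]
        have c : B.comb γ₁ (x₀ + h) (x₀ + h) + B.comb γ₁ (x₀ + h + d) (x₀ + h + d) +
            B.comb γ₁ (y₀ + k) (y₀ + k) + B.comb γ₁ (y₀ + k + d) (y₀ + k + d) +
            B.comb γ₁ (x₀ + h + (y₀ + k)) (x₀ + h + (y₀ + k)) +
            B.comb γ₁ (x₀ + h + (y₀ + k) + d) (x₀ + h + (y₀ + k) + d) =
            ∑ i, γ₁ i * (τ X + τ X' + τ Y + τ Y' + τ Z + τ Z') i := by
          rw [hval, hval, hval, hval, hval, hval, b1, b2, b3, b4, b5, b6]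
          simp only [Pi.add_apply, mul_add, Finset.sum_add_distrib]
        rw [c, ← hs]
        ring
      have e1 : ∀ c : ℝ, p X * p X' * q Y * q Y' * r Z * r Z' * s =
          s * (p X * p X' * q Y * q Y' * r Z * r Z') := fun _ => by ring
      rw [e0, e1 0, ← mul_sub, abs_mul, hs1, one_mul]
      have := h2 H (fun v : H => ind B.lam X (x₀ + v)) (fun v : H => ind B.lam X' (x₀ + v))
        (fun v : H => ind B.lam Y (y₀ + v)) (fun v : H => ind B.lam Y' (y₀ + v))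
        (fun v : H => ind B.lam Z (x₀ + y₀ + v)) (fun v : H => ind B.lam Z' (x₀ + y₀ + v)) ρ hρ
        (fun v => ⟨ind_nonneg _ _ _, ind_le_one _ _ _⟩)
        (fun v => ⟨ind_nonneg _ _ _, ind_le_one _ _ _⟩)
        (fun v => ⟨ind_nonneg _ _ _, ind_le_one _ _ _⟩)
        (fun v => ⟨ind_nonneg _ _ _, ind_le_one _ _ _⟩)
        (fun v => ⟨ind_nonneg _ _ _, ind_le_one _ _ _⟩)
        (fun v => ⟨ind_nonneg _ _ _, ind_le_one _ _ _⟩) (hx X) (hx X') (hy Y) (hy Y')
        (hxy Z) (hxy Z')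
      refine le_trans this ?_
      linarith
    · have hJ : J6 p q r τ X X' Y Y' Z Z' γ₁ γ₂ γ₃ γ₄ = 0 := by
        unfold J6; rw [if_neg hγ]
      rw [hJ, sub_zero]
      have hcases : γ₁ + γ₂ + γ₃ + γ₄ ≠ 0 ∨ γ₃ + γ₄ ≠ 0 ∨ γ₂ + γ₄ ≠ 0 := by
        by_contra hcon
        push Not at hcon
        obtain ⟨c1, c2, c3⟩ := hcon
        have eq_of : ∀ a b : Fin B.k → ZMod 2, a + b = 0 → a = b := by
          intro a b hab
          have : a + b + b = b := by rw [hab, zero_add]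
          rw [add_assoc, add_self_zero b, add_zero] at this
          exact this
        have d1 := eq_of _ _ c2
        have d2 := eq_of _ _ c3
        subst d1
        subst d2
        have : γ₁ + γ₂ + γ₂ + γ₂ = γ₁ + γ₂ + (γ₂ + γ₂) := by abel
        rw [this, add_self_zero, add_zero] at c1
        have d3 := eq_of _ _ c1
        exact hγ ⟨d3.symm, d3.symm, d3.symm⟩
      have h4 := h1 G H (B.comb γ₁) (B.comb γ₂) (B.comb γ₃) (B.comb γ₄) (ind B.lam X)
        (ind B.lam X') (ind B.lam Y) (ind B.lam Y') (ind B.lam Z) (ind B.lam Z') x₀ y₀ μ hμ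
        (abs_ind _ _) (abs_ind _ _) (abs_ind _ _) (abs_ind _ _) (abs_ind _ _) (abs_ind _ _)
        (by
          rcases hcases with hc | hc | hc
          · left
            have := HR_bound H hHR hν _ hc
            rw [comb_add, comb_add, comb_add] at this
            exact this
          · right; left
            have := HR_bound H hHR hν _ hc
            rw [comb_add] at this
            exact this
          · right; right
            have := HR_bound H hHR hν _ hc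
            rw [comb_add] at this
            exact this)
      have h5 : |I6 B H x₀ y₀ X X' Y Y' Z Z' γ₁ γ₂ γ₃ γ₄| ≤ μ := h4
      linarith
  have hbound : ∀ X X' Y Y' Z Z' γ₁ γ₂ γ₃ γ₄,
      |hat (F X Y Z) γ₁ * hat (F X' Y Z') γ₂ * hat (F X Y' Z') γ₃ * hat (F X' Y' Z) γ₄ *
        I6 B H x₀ y₀ X X' Y Y' Z Z' γ₁ γ₂ γ₃ γ₄ -
      hat (F X Y Z) γ₁ * hat (F X' Y Z') γ₂ * hat (F X Y' Z') γ₃ * hat (F X' Y' Z) γ₄ *
        J6 p q r τ X X' Y Y' Z Z' γ₁ γ₂ γ₃ γ₄| ≤ μ + 6 * ρ := by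
    intro X X' Y Y' Z Z' γ₁ γ₂ γ₃ γ₄
    have hh : ∀ X Y Z γ, |hat (F X Y Z) γ| ≤ 1 := by
      intro X Y Z γ
      apply hat1
      intro m
      rw [abs_of_nonneg (hF X Y Z m).1]; exact (hF X Y Z m).2
    rw [← mul_sub, abs_mul, abs_mul, abs_mul, abs_mul]
    have h12 : |hat (F X Y Z) γ₁| * |hat (F X' Y Z') γ₂| ≤ 1 :=
      mul_le_one₀ (hh _ _ _ _) (abs_nonneg _) (hh _ _ _ _)
    have h123 : |hat (F X Y Z) γ₁| * |hat (F X' Y Z') γ₂| * |hat (F X Y' Z') γ₃| ≤ 1 :=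
      mul_le_one₀ h12 (abs_nonneg _) (hh _ _ _ _)
    have h1234 : |hat (F X Y Z) γ₁| * |hat (F X' Y Z') γ₂| * |hat (F X Y' Z') γ₃| *
        |hat (F X' Y' Z) γ₄| ≤ 1 :=
      mul_le_one₀ h123 (abs_nonneg _) (hh _ _ _ _)
    calc _ ≤ 1 * (μ + 6 * ρ) :=
          mul_le_mul h1234 (hI X X' Y Y' Z Z' γ₁ γ₂ γ₃ γ₄) (abs_nonneg _) zero_le_one
      _ = _ := one_mul _
  rw [TL_expand h3 B H f F hf, TM_expand h3]
  simp only [← Finset.sum_sub_distrib]
  refine le_trans (abs_sum_le_card_mul _ _ fun X => abs_sum_le_card_mul _ _ fun X' =>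
    abs_sum_le_card_mul _ _ fun Y => abs_sum_le_card_mul _ _ fun Y' =>
    abs_sum_le_card_mul _ _ fun Z => abs_sum_le_card_mul _ _ fun Z' =>
    abs_sum_le_card_mul _ _ fun γ₁ => abs_sum_le_card_mul _ _ fun γ₂ =>
    abs_sum_le_card_mul _ _ fun γ₃ => abs_sum_le_card_mul _ _ fun γ₄ =>
      hbound X X' Y Y' Z Z' γ₁ γ₂ γ₃ γ₄) ?_
  apply le_of_eq
  simp only [Fintype.card_fin, Fintype.card_pi, Finset.prod_const, Finset.card_univ, ZMod.card,
    Nat.cast_pow, Nat.cast_ofNat]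
  ring

end Pool.Agent.H25.SQ
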