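import Pool.Agent.H81.SQ.Targets

/-!
# Counting with the label model: the density
-/

namespace Pool.Agent.H25.SQ

open Finset Pool.Agent.H36Sq Pool.Agent.H81.SQ
open scoped BigOperators

theorem abs_sum_le_card_mul {ι : Type*} [Fintype ι] (f : ι → ℝ) (c : ℝ) (h : ∀ i, |f i| ≤ c) :
    |∑ i, f i| ≤ (Fintype.card ι : ℝ) * c := by
  calc |∑ i, f i| ≤ ∑ i, |f i| := Finset.abs_sum_le_sum_abs _ _
    _ ≤ ∑ _i : ι, c := Finset.sum_le_sum fun i _ => h i
    _ = _ := by simp [Finset.card_univ]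

section comb

variable {G : Type} [AddCommGroup G] [Module (ZMod 2) G]

theorem comb_apply (B : Fac G) (γ : Fin B.k → ZMod 2) (x y : G) :
    B.comb γ x y = ∑ i, γ i * B.M i x y := by
  simp [Fac.comb, LinearMap.sum_apply]

theorem comb_add (B : Fac G) (γ δ : Fin B.k → ZMod 2) :
    B.comb (γ + δ) = B.comb γ + B.comb δ := by
  simp [Fac.comb, add_smul, Finset.sum_add_distrib]

end comb

/-- The indicator of a label. -/
noncomputable def ind {G : Type} {K : ℕ} (lam : G → Fin K) (X : Fin K) (x : G) : ℝ :=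
  if lam x = X then 1 else 0

theorem ind_nonneg {G : Type} {K : ℕ} (lam : G → Fin K) (X : Fin K) (x : G) :
    0 ≤ ind lam X x := by
  unfold ind; split_ifs <;> norm_num

theorem ind_le_one {G : Type} {K : ℕ} (lam : G → Fin K) (X : Fin K) (x : G) :
    ind lam X x ≤ 1 := by
  unfold ind; split_ifs <;> norm_num

theorem abs_ind {G : Type} {K : ℕ} (lam : G → Fin K) (X : Fin K) (x : G) :
    |ind lam X x| ≤ 1 := by
  rw [abs_of_nonneg (ind_nonneg lam X x)]; exact ind_le_one lam X x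

theorem sum_ind_mul {G : Type} {K : ℕ} (lam : G → Fin K) (x : G) (g : Fin K → ℝ) :
    ∑ X, ind lam X x * g X = g (lam x) := by
  unfold ind
  rw [Finset.sum_eq_single (lam x)]
  · simp
  · intro b _ hb
    rw [if_neg (Ne.symm hb), zero_mul]
  · intro h; exact absurd (Finset.mem_univ _) h

variable {G : Type} [AddCommGroup G] [Module (ZMod 2) G] [Fintype G]

/-- The local correlation of three labels with a form. -/
noncomputable def I3 (B : Fac G) (H : Submodule (ZMod 2) G) (x₀ y₀ : G) (X Y Z : Fin B.K)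
    (γ : Fin B.k → ZMod 2) : ℝ :=
  𝔼 h : H, 𝔼 k : H, ind B.lam X (x₀ + h) * ind B.lam Y (y₀ + k) *
    ind B.lam Z (x₀ + h + (y₀ + k)) * sg (B.comb γ (x₀ + h) (y₀ + k))

theorem ML_expand (h3 : T_FEXP) (B : Fac G) (H : Submodule (ZMod 2) G) (f : G → G → ℝ)
    (F : Fin B.K → Fin B.K → Fin B.K → (Fin B.k → ZMod 2) → ℝ)
    (hf : ∀ x y, f x y = F (B.lam x) (B.lam y) (B.lam (x + y)) (fun i => B.M i x y))
    (x₀ y₀ : G) :
    ML H f x₀ y₀ = ∑ X, ∑ Y, ∑ Z, ∑ γ, hat (F X Y Z) γ * I3 B H x₀ y₀ X Y Z γ := by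
  obtain ⟨-, inv, -, -⟩ := h3 B.k
  have key : ∀ x y, f x y = ∑ X, ∑ Y, ∑ Z, ∑ γ, hat (F X Y Z) γ *
      (ind B.lam X x * ind B.lam Y y * ind B.lam Z (x + y) * sg (B.comb γ x y)) := by
    intro x y
    have e1 : ∀ X Y Z, ∑ γ, hat (F X Y Z) γ *
        (ind B.lam X x * ind B.lam Y y * ind B.lam Z (x + y) * sg (B.comb γ x y)) =
        ind B.lam Z (x + y) * (ind B.lam Y y * (ind B.lam X x *
          F X Y Z (fun i => B.M i x y))) := by
      intro X Y Z
      rw [inv (F X Y Z) (fun i => B.M i x y), Finset.mul_sum, Finset.mul_sum, Finset.mul_sum]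
      refine Finset.sum_congr rfl fun γ _ => ?_
      rw [comb_apply]; ring
    simp_rw [e1]
    simp_rw [sum_ind_mul B.lam (x + y) (fun Z => ind B.lam _ y * (ind B.lam _ x *
      F _ _ Z (fun i => B.M i x y)))]
    simp_rw [sum_ind_mul B.lam y (fun Y => (ind B.lam _ x *
      F _ Y (B.lam (x + y)) (fun i => B.M i x y)))]
    rw [sum_ind_mul B.lam x (fun X => F X (B.lam y) (B.lam (x + y)) (fun i => B.M i x y)), hf]
  unfold ML
  simp_rw [key]
  simp only [Finset.expect_sum_comm]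
  refine Finset.sum_congr rfl fun X _ => Finset.sum_congr rfl fun Y _ =>
    Finset.sum_congr rfl fun Z _ => Finset.sum_congr rfl fun γ _ => ?_
  unfold I3
  simp only [Finset.mul_expect]

theorem idx_nonneg (H : Submodule (ZMod 2) G) : 0 ≤ idx H := by
  unfold idx; positivity

theorem HR_bound {B : Fac G} {ν μ : ℝ} (H : Submodule (ZMod 2) G) (hHR : B.HR ν)
    (hν : idx H ^ 8 * ν ≤ μ ^ 4) (γ : Fin B.k → ZMod 2) (hγ : γ ≠ 0) :
    idx H ^ 8 * ((Fintype.card (rad (B.comb γ)) : ℝ) / (Fintype.card G : ℝ)) ≤ μ ^ 4 := by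
  refine le_trans ?_ hν
  have hG : (0 : ℝ) < Fintype.card G := by
    exact_mod_cast Fintype.card_pos
  have h1 : (Fintype.card (rad (B.comb γ)) : ℝ) / (Fintype.card G : ℝ) ≤ ν := by
    rw [div_le_iff₀ hG]; exact hHR γ hγ
  exact mul_le_mul_of_nonneg_left h1 (pow_nonneg (idx_nonneg H) 8)

theorem cnt1 (h1 : T_LPH) (h2 : T_TRI) (h3 : T_FEXP) : T_CNT1 := by
  intro G _ _ _ B H f F ν μ ρ x₀ y₀ hμ hρ hν hHR hF hf hx hy hxy
  obtain ⟨hat1, inv, hat0, -⟩ := h3 B.k
  set p := dens H B.lam x₀ with hp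
  set q := dens H B.lam y₀ with hq
  set r := dens H B.lam (x₀ + y₀) with hr
  have hMM : MM p q r F = ∑ X, ∑ Y, ∑ Z, ∑ γ, hat (F X Y Z) γ *
      (if γ = 0 then p X * q Y * r Z else 0) := by
    unfold MM
    refine Finset.sum_congr rfl fun X _ => Finset.sum_congr rfl fun Y _ =>
      Finset.sum_congr rfl fun Z _ => ?_
    rw [← hat0]
    rw [Finset.sum_eq_single 0]
    · simp; ring
    · intro b _ hb; simp [hb]
    · intro h; exact absurd (Finset.mem_univ _) h
  have hbound : ∀ X Y Z γ, |hat (F X Y Z) γ * I3 B H x₀ y₀ X Y Z γ -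
      hat (F X Y Z) γ * (if γ = 0 then p X * q Y * r Z else 0)| ≤ μ + 6 * ρ := by
    intro X Y Z γ
    rw [← mul_sub, abs_mul]
    have hh : |hat (F X Y Z) γ| ≤ 1 := by
      apply hat1
      intro m
      rw [abs_of_nonneg (hF X Y Z m).1]; exact (hF X Y Z m).2
    have hI : |I3 B H x₀ y₀ X Y Z γ - (if γ = 0 then p X * q Y * r Z else 0)| ≤ μ + 6 * ρ := by
      by_cases hγ : γ = 0
      · subst hγ
        rw [if_pos rfl]
        have e0 : I3 B H x₀ y₀ X Y Z 0 = 𝔼 h : H, 𝔼 k : H,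
            (fun v : H => ind B.lam X (x₀ + v)) h * (fun v : H => ind B.lam Y (y₀ + v)) k *
              (fun v : H => ind B.lam Z (x₀ + y₀ + v)) (h + k) := by
          unfold I3
          refine Finset.expect_congr rfl fun h _ => Finset.expect_congr rfl fun k _ => ?_
          rw [comb_apply]
          simp only [Pi.zero_apply, zero_mul, Finset.sum_const_zero, sg_zero, mul_one]
          congr 2
          rw [Submodule.coe_add]; abel
        rw [e0]
        have := h2 H (fun v : H => ind B.lam X (x₀ + v)) (fun v : H => ind B.lam Y (y₀ + v))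
          (fun v : H => ind B.lam Z (x₀ + y₀ + v)) ρ hρ
          (fun v => ⟨ind_nonneg _ _ _, ind_le_one _ _ _⟩)
          (fun v => ⟨ind_nonneg _ _ _, ind_le_one _ _ _⟩)
          (fun v => ⟨ind_nonneg _ _ _, ind_le_one _ _ _⟩) (hx X) (hy Y) (hxy Z)
        refine le_trans this ?_
        linarith
      · rw [if_neg hγ, sub_zero]
        have h4 := h1 G H (B.comb γ) (ind B.lam X) (ind B.lam Y) (ind B.lam Z) x₀ y₀
          (abs_ind _ _) (abs_ind _ _) (abs_ind _ _)
        have h5 := le_trans h4 (HR_bound H hHR hν γ hγ)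
        have h6 : |I3 B H x₀ y₀ X Y Z γ| ≤ μ := le_of_pow_le_pow_left₀ (by norm_num) hμ h5
        linarith
    calc |hat (F X Y Z) γ| * |I3 B H x₀ y₀ X Y Z γ - (if γ = 0 then p X * q Y * r Z else 0)|
        ≤ 1 * (μ + 6 * ρ) := mul_le_mul hh hI (abs_nonneg _) zero_le_one
      _ = _ := one_mul _
  rw [ML_expand h3 B H f F hf, hMM]
  simp only [← Finset.sum_sub_distrib]
  refine le_trans (abs_sum_le_card_mul _ _ fun X => abs_sum_le_card_mul _ _ fun Y =>
    abs_sum_le_card_mul _ _ fun Z => abs_sum_le_card_mul _ _ fun γ => hbound X Y Z γ) ?_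
  apply le_of_eq
  simp only [Fintype.card_fin, Fintype.card_pi, Finset.prod_const, Finset.card_univ, ZMod.card,
    Nat.cast_pow, Nat.cast_ofNat]
  ring

end Pool.Agent.H25.SQ
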