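import Pool.Agent.H81.SQ.Targets

/-!
# One step of the energy increment for the Fourier regular subspace
-/

namespace Pool.Agent.H25.SQ

open Finset Pool.Agent.H36Sq Pool.Agent.H81.SQ
open scoped BigOperators

section general

variable {V : Type} [AddCommGroup V] [Module (ZMod 2) V] [Fintype V]

theorem expect_translate (g : V → ℝ) (t : V) : 𝔼 x : V, g (x + t) = 𝔼 x : V, g x :=
  Fintype.expect_equiv (Equiv.addRight t) _ _ fun _ => rfl

/-- Averages over translates by a subspace. -/
theorem expect_sub (H : Submodule (ZMod 2) V) (g : V → ℝ) :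
    𝔼 x : V, 𝔼 h : H, g (x + h) = 𝔼 x : V, g x := by
  rw [Finset.expect_comm]
  simp_rw [expect_translate]
  exact Fintype.expect_const _

theorem variance (u : V → ℝ) (a : ℝ) (ha : 𝔼 v : V, u v = a) :
    𝔼 v : V, (u v) ^ 2 = a ^ 2 + 𝔼 v : V, (u v - a) ^ 2 := by
  have h1 : ∀ v, (u v - a) ^ 2 = (u v) ^ 2 - (2 * a * u v - a ^ 2) := by intro v; ring
  simp_rw [h1]
  rw [Finset.expect_sub_distrib, Finset.expect_sub_distrib, ← Finset.mul_expect, ha,
    Fintype.expect_const]
  ring

theorem expect_sg (χ : Module.Dual (ZMod 2) V) (hχ : χ ≠ 0) : 𝔼 v : V, sg (χ v) = 0 := by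
  rw [Fintype.expect_eq_sum_div_card]
  rw [sum_sg_hom (fun v => χ v) (fun x y => map_add χ x y)]
  · simp
  · by_contra hcon
    push Not at hcon
    exact hχ (LinearMap.ext fun x => by simpa using hcon x)

theorem cs (u : V → ℝ) (χ : Module.Dual (ZMod 2) V) :
    (𝔼 v : V, u v * sg (χ v)) ^ 2 ≤ 𝔼 v : V, (u v) ^ 2 := by
  have h := Finset.expect_mul_sq_le_sq_mul_sq (Finset.univ : Finset V) u (fun v => sg (χ v))
  simp only [sg_sq] at h
  rw [Fintype.expect_const, mul_one] at h
  exact h

end general

variable {G : Type} [AddCommGroup G] [Module (ZMod 2) G] [Fintype G]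

/-- A Fourier coefficient of a label on a coset. -/
noncomputable def corr {K : ℕ} (H : Submodule (ZMod 2) G) (lam : G → Fin K) (x : G) (l : Fin K)
    (χ : Module.Dual (ZMod 2) H) : ℝ :=
  𝔼 h : H, (if lam (x + h) = l then (1 : ℝ) else 0) * sg (χ h)

theorem corr_shift {K : ℕ} (H : Submodule (ZMod 2) G) (lam : G → Fin K) (x : G) (l : Fin K)
    (χ : Module.Dual (ZMod 2) H) (t : H) :
    corr H lam (x + t) l χ = sg (χ t) * corr H lam x l χ := by
  unfold corr
  rw [Finset.mul_expect]
  refine Fintype.expect_equiv (Equiv.addLeft t) _ _ fun h => ?_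
  simp only [Equiv.coe_addLeft, map_add, sg_add, Submodule.coe_add, ← add_assoc]
  have := sg_mul_self (χ t)
  calc (if lam (x + t + h) = l then (1 : ℝ) else 0) * sg (χ h)
      = (if lam (x + t + h) = l then (1 : ℝ) else 0) * sg (χ h) * (sg (χ t) * sg (χ t)) := by
        rw [this, mul_one]
    _ = _ := by ring

theorem frs1 : T_FRS1 := by
  intro G _ _ _ K lam H κ hκ hbad
  classical
  -- the characters
  have ch : ∀ c : G ⧸ H, ∃ χ : Module.Dual (ZMod 2) H,
      ∀ x : G, Submodule.Quotient.mk x = c → ¬ Good H lam κ x →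
        χ ≠ 0 ∧ ∃ l, κ < |corr H lam x l χ| := by
    intro c
    by_cases hc : ∃ x₁ : G, Submodule.Quotient.mk x₁ = c ∧ ¬ Good H lam κ x₁
    · obtain ⟨x₁, h1, h2⟩ := hc
      unfold Good Reg at h2
      push Not at h2
      obtain ⟨l, χ, hχ, hl⟩ := h2
      refine ⟨χ, fun x hx _ => ⟨hχ, l, ?_⟩⟩
      have hmem : x - x₁ ∈ H := by
        rw [← Submodule.Quotient.eq (p := H), hx, h1]
      have e : x = x₁ + ((⟨x - x₁, hmem⟩ : H) : G) := by
        simp
      rw [e, corr_shift, abs_mul, abs_sg, one_mul]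
      exact hl
    · refine ⟨0, fun x hx hb => ?_⟩
      exact absurd ⟨x, hx, hb⟩ hc
  choose χ hχ using ch
  have : Finite (G ⧸ H) := Quotient.finite _
  have : Fintype (G ⧸ H) := Fintype.ofFinite _
  let Φ : H →ₗ[ZMod 2] ((G ⧸ H) → ZMod 2) := LinearMap.pi χ
  let H1 : Submodule (ZMod 2) H := LinearMap.ker Φ
  let H' : Submodule (ZMod 2) G := H1.map H.subtype
  have hH1 : ∀ (h : H), h ∈ H1 → ∀ c, χ c h = 0 := by
    intro h hh c
    have : Φ h = 0 := hh
    exact congrFun this c
  have hinj : Function.Injective H.subtype := Subtype.val_injective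
  let e : H1 ≃ₗ[ZMod 2] H' := Submodule.equivMapOfInjective H.subtype hinj H1
  have hdens' : ∀ x l, dens H' lam x l =
      𝔼 h : H1, if lam (x + ((h : H) : G)) = l then (1 : ℝ) else 0 := by
    intro x l
    unfold Pool.Agent.H81.SQ.dens
    exact (Fintype.expect_equiv e.toEquiv _ _ fun h => rfl).symm
  refine ⟨H', ?_, ?_⟩
  · -- index
    have hG : (0 : ℝ) < Fintype.card G := by exact_mod_cast Fintype.card_pos
    have hHpos : (0 : ℝ) < Fintype.card H := by exact_mod_cast Fintype.card_pos
    have hidx : idx H = (Nat.card (G ⧸ H) : ℝ) := by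
      have h1 := Submodule.card_eq_card_quotient_mul_card H
      rw [Nat.card_eq_fintype_card, Nat.card_eq_fintype_card (α := H)] at h1
      unfold idx
      rw [div_eq_iff hHpos.ne']
      have : (Fintype.card G : ℝ) = ((Fintype.card H * Nat.card (G ⧸ H) : ℕ) : ℝ) := by
        exact_mod_cast h1
      rw [this]; push_cast; ring
    have hcardH' : Fintype.card H' = Fintype.card H1 := (Fintype.card_congr e.toEquiv).symm
    have hle : (Fintype.card H : ℝ) ≤ Fintype.card H1 * 2 ^ (Nat.card (G ⧸ H)) := by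
      have h1 := Submodule.card_eq_card_quotient_mul_card H1
      have h2 : Nat.card (H ⧸ H1) ≤ Nat.card ((G ⧸ H) → ZMod 2) := by
        have e2 := (LinearMap.quotKerEquivRange Φ)
        rw [Nat.card_congr e2.toEquiv]
        exact Nat.card_le_card_of_injective _ Subtype.val_injective
      have h3 : Nat.card ((G ⧸ H) → ZMod 2) = 2 ^ Nat.card (G ⧸ H) := by
        rw [Nat.card_fun]; simp
      rw [h3] at h2
      rw [Nat.card_eq_fintype_card (α := H), Nat.card_eq_fintype_card (α := H1)] at h1
      rw [h1]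
      push_cast
      have : (Nat.card (H ⧸ H1) : ℝ) ≤ 2 ^ Nat.card (G ⧸ H) := by exact_mod_cast h2
      gcongr
    have hH1pos : (0 : ℝ) < Fintype.card H1 := by exact_mod_cast Fintype.card_pos
    have : (2 : ℝ) ^ (idx H) = 2 ^ (Nat.card (G ⧸ H)) := by
      rw [hidx, Real.rpow_natCast]
    rw [this]
    unfold idx
    rw [hcardH', div_mul_eq_mul_div, div_le_div_iff₀ hH1pos hHpos]
    calc (Fintype.card G : ℝ) * Fintype.card H
        ≤ Fintype.card G * (Fintype.card H1 * 2 ^ (Nat.card (G ⧸ H))) := by gcongr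
      _ = _ := by ring
  · -- energy
    -- averages of the finer density
    have hav : ∀ x l, 𝔼 h : H, dens H' lam (x + h) l = dens H lam x l := by
      intro x l
      simp_rw [hdens']
      have h1 := expect_sub H1 (fun h : H => if lam (x + (h : G)) = l then (1 : ℝ) else 0)
      unfold Pool.Agent.H81.SQ.dens
      rw [← h1]
      refine Finset.expect_congr rfl fun h _ => Finset.expect_congr rfl fun h' _ => ?_
      rw [Submodule.coe_add, add_assoc]
    have hdec : ∀ l, 𝔼 x : G, (dens H' lam x l) ^ 2 = 𝔼 x : G, (dens H lam x l) ^ 2 +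
        𝔼 x : G, 𝔼 h : H, (dens H' lam (x + h) l - dens H lam x l) ^ 2 := by
      intro l
      rw [← expect_sub H (fun x => (dens H' lam x l) ^ 2), ← Finset.expect_add_distrib]
      refine Finset.expect_congr rfl fun x _ => ?_
      exact variance (fun h : H => dens H' lam (x + h) l) _ (hav x l)
    have hgain : ∀ x, ¬ Good H lam κ x →
        κ ^ 2 ≤ ∑ l, 𝔼 h : H, (dens H' lam (x + h) l - dens H lam x l) ^ 2 := by
      intro x hx
      obtain ⟨hne, l, hl⟩ := hχ (Submodule.Quotient.mk x) x rfl hx
      set ψ := χ (Submodule.Quotient.mk x) with hψ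
      have h1 : 𝔼 h : H, dens H' lam (x + h) l * sg (ψ h) = corr H lam x l ψ := by
        simp_rw [hdens']
        have h1 := expect_sub H1
          (fun h : H => (if lam (x + (h : G)) = l then (1 : ℝ) else 0) * sg (ψ h))
        unfold corr
        rw [← h1]
        refine Finset.expect_congr rfl fun h _ => ?_
        rw [Finset.expect_mul]
        refine Finset.expect_congr rfl fun h' _ => ?_
        rw [Submodule.coe_add, add_assoc, map_add, hH1 h' h'.2, add_zero]
      have h2 : 𝔼 h : H, (dens H' lam (x + h) l - dens H lam x l) * sg (ψ h) =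
          corr H lam x l ψ := by
        simp_rw [sub_mul]
        rw [Finset.expect_sub_distrib, h1, ← Finset.mul_expect, expect_sg ψ hne, mul_zero,
          sub_zero]
      have h3 := cs (fun h : H => dens H' lam (x + h) l - dens H lam x l) ψ
      rw [h2] at h3
      have h4 : κ ^ 2 ≤ (corr H lam x l ψ) ^ 2 := by
        rw [← sq_abs (corr H lam x l ψ)]
        exact pow_le_pow_left₀ hκ.le hl.le 2
      refine le_trans (le_trans h4 h3) ?_
      exact Finset.single_le_sum
        (f := fun l => 𝔼 h : H, (dens H' lam (x + h) l - dens H lam x l) ^ 2)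
        (fun l _ => Finset.expect_nonneg fun h _ => sq_nonneg _) (Finset.mem_univ l)
    have hsum : ∑ l, 𝔼 x : G, (dens H' lam x l) ^ 2 =
        (∑ l, 𝔼 x : G, (dens H lam x l) ^ 2) +
        𝔼 x : G, ∑ l, 𝔼 h : H, (dens H' lam (x + h) l - dens H lam x l) ^ 2 := by
      rw [Finset.expect_sum_comm, ← Finset.sum_add_distrib]
      exact Finset.sum_congr rfl fun l _ => hdec l
    rw [hsum]
    refine add_le_add le_rfl ?_
    rw [not_le] at hbad
    have hG : (0 : ℝ) < Fintype.card G := by exact_mod_cast Fintype.card_pos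
    have hlow : 𝔼 x : G, (if ¬ Good H lam κ x then κ ^ 2 else 0) ≤
        𝔼 x : G, ∑ l, 𝔼 h : H, (dens H' lam (x + h) l - dens H lam x l) ^ 2 := by
      refine Finset.expect_le_expect fun x _ => ?_
      by_cases hx : Good H lam κ x
      swap
      · rw [if_pos hx]
        exact hgain x hx
      · rw [if_neg (not_not.mpr hx)]
        exact Finset.sum_nonneg fun l _ => Finset.expect_nonneg fun h _ => sq_nonneg _
    refine le_trans ?_ hlow
    rw [Fintype.expect_eq_sum_div_card, ← Finset.sum_filter, Finset.sum_const, nsmul_eq_mul,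
      le_div_iff₀ hG]
    have hc : Nat.card {x₀ : G // ¬ Good H lam κ x₀} =
        (Finset.univ.filter fun x => ¬ Good H lam κ x).card := by
      rw [Nat.card_eq_fintype_card, Fintype.card_subtype]
    rw [hc] at hbad
    calc κ ^ 3 * (Fintype.card G : ℝ) = (κ * Fintype.card G) * κ ^ 2 := by ring
      _ ≤ _ := by
        apply mul_le_mul_of_nonneg_right hbad.le (sq_nonneg κ)

end Pool.Agent.H25.SQ
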